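import Pool.Agent.V8H77.LT.Dom
import Pool.Agent.V8H71.VT.Prod

/-!
# Exterior products of dominated classes
-/

set_option autoImplicit false

namespace Pool.Agent.V8H77.LT

open Module TensorProduct
open Pool.Agent.V8H94.CT Pool.Agent.V8H94.TC
open Pool.Agent.V8H94.VT

variable {p : ℕ} [Fact p.Prime] {Ω : Type} [Field Ω] [CharZero Ω]

/-- **The exterior product of two dominated classes is dominated.** -/
theorem IsDomIn.ext {P₀ : AbVar p Ω → Prop} (hcl : IsClass P₀) {T : Cohomology p Ω} {Z : Cycles T} {X Y : T.V} {x : T.H X} {y : T.H Y}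
    (hx : IsDomIn P₀ Z X x) (hy : IsDomIn P₀ Z Y y) : IsDomIn P₀ Z (T.prod X Y) (T.ext X Y x y) := by
  obtain ⟨i, k, c, a, hxi, hxk, ha, hX⟩ := hx
  obtain ⟨j, l, d, b, hyj, hyl, hb, hY⟩ := hy
  obtain ⟨n, hn⟩ := Pool.Agent.V8H1.VT.bil_gen (T.F X) (T.F Y) (T.ext X Y) (T.F (T.prod X Y))
    (T.m Y) (T.m X) (T.F_ext X Y) a b k l x y hxk hyl
  refine ⟨i + j, n, c + d, a ^ T.m Y * b ^ T.m X, T.ext_gr X Y i j x hxi y hyj, hn, ?_, ?_⟩
  · have h1 := isPure_mul_of (isPure_pow_of ha (T.m Y)) (isPure_pow_of hb (T.m X))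
    have e : T.m X * i * T.m Y + T.m Y * j * T.m X = T.m (T.prod X Y) * (i + j) := by
      rw [T.m_prod]; ring
    rwa [e] at h1
  intro t ht
  obtain ⟨B₁, N₁, g₁, e₁, b₁, Y₁, R₁, hPB₁, hm₁, hY₁, hR₁, hP₁, hN₁, he₁, hd₁, hp₁, hq₁, hC₁⟩ :=
    hX (T.m Y * t) (Nat.mul_pos (T.m_pos Y) ht)
  obtain ⟨B₂, N₂, g₂, e₂, b₂, Y₂, R₂, hPB₂, hm₂, hY₂, hR₂, hP₂, hN₂, he₂, hd₂, hp₂, hq₂, hC₂⟩ :=
    hY (T.m X * t) (Nat.mul_pos (T.m_pos X) ht)
  have hm : B₁.m = B₂.m := by rw [hm₁, hm₂]; ring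
  have hl : ∀ (c : Ω) (v : B₁.H), B₁.F v = c • v →
      (B₁.prod B₂ hm).F ((v, 0) : B₁.H × B₂.H) = c • ((v, 0) : B₁.H × B₂.H) := by
    intro c v h
    change (B₁.F v, B₂.F 0) = c • ((v, 0) : B₁.H × B₂.H)
    rw [h, map_zero, Prod.smul_mk, smul_zero]
  have hr : ∀ (c : Ω) (v : B₂.H), B₂.F v = c • v →
      (B₁.prod B₂ hm).F ((0, v) : B₁.H × B₂.H) = c • ((0, v) : B₁.H × B₂.H) := by
    intro c v h
    change (B₁.F 0, B₂.F v) = c • ((0, v) : B₁.H × B₂.H)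
    rw [h, map_zero, Prod.smul_mk, smul_zero]
  have hlist : ∀ (U : List (Ω × B₁.H)) (U' : List (Ω × B₂.H)),
      (∀ u ∈ U, B₁.F u.2 = u.1 • u.2) → (∀ u ∈ U', B₂.F u.2 = u.1 • u.2) →
      ∀ u ∈ U.map (fun x => (x.1, ((x.2, 0) : B₁.H × B₂.H))) ++
        U'.map (fun x => (x.1, ((0, x.2) : B₁.H × B₂.H))),
        (B₁.prod B₂ hm).F u.2 = u.1 • u.2 := by
    intro U U' hU hU' u hu
    rcases List.mem_append.1 hu with hu | hu
    · obtain ⟨u', hu', rfl⟩ := List.mem_map.1 hu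
      exact hl _ _ (hU u' hu')
    · obtain ⟨u', hu', rfl⟩ := List.mem_map.1 hu
      exact hr _ _ (hU' u' hu')
  have hfst : ∀ (U : List (Ω × B₁.H)) (U' : List (Ω × B₂.H)),
      ((U.map (fun x => (x.1, ((x.2, 0) : B₁.H × B₂.H))) ++
        U'.map (fun x => (x.1, ((0, x.2) : B₁.H × B₂.H)))).map Prod.fst).prod =
        (U.map Prod.fst).prod * (U'.map Prod.fst).prod := by
    intro U U'
    rw [List.map_append, List.prod_append, List.map_map, List.map_map]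
    rfl
  refine ⟨B₁.prod B₂ hm, N₁ + N₂, g₁ + g₂, e₁ * e₂, (b₁.prod b₂).reindex finSumFinEquiv,
    Y₁.map (fun x => (x.1, ((x.2, 0) : B₁.H × B₂.H))) ++
      Y₂.map (fun x => (x.1, ((0, x.2) : B₁.H × B₂.H))),
    R₁.map (fun x => (x.1, ((x.2, 0) : B₁.H × B₂.H))) ++
      R₂.map (fun x => (x.1, ((0, x.2) : B₁.H × B₂.H))), hcl.prod B₁ B₂ hm hPB₁ hPB₂, ?_, hlist Y₁ Y₂ hY₁ hY₂,
    hlist R₁ R₂ hR₁ hR₂, perm_prod_basis b₁ b₂ Y₁ R₁ Y₂ R₂ hP₁ hP₂, by omega,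
    Nat.mul_pos he₁ he₂, ?_, ?_, ?_, ?_⟩
  · change B₁.m = _
    rw [hm₁, T.m_prod, mul_assoc]
  · have hlen : (Y₁.map (fun x => (x.1, ((x.2, 0) : B₁.H × B₂.H))) ++
        Y₂.map (fun x => (x.1, ((0, x.2) : B₁.H × B₂.H)))).length = Y₁.length + Y₂.length := by
      rw [List.length_append, List.length_map, List.length_map]
    exact (congrArg (fun n => i + j + n) hlen).trans (by omega)
  · refine (congrArg (fun z => ((a ^ T.m Y * b ^ T.m X) ^ t * z) ^ (e₁ * e₂)) (hfst Y₁ Y₂)).trans ?_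
    have e : (a ^ T.m Y * b ^ T.m X) ^ t * ((Y₁.map Prod.fst).prod * (Y₂.map Prod.fst).prod) =
        (a ^ (T.m Y * t) * (Y₁.map Prod.fst).prod) * (b ^ (T.m X * t) * (Y₂.map Prod.fst).prod) := by
      rw [mul_pow, ← pow_mul, ← pow_mul]
      ring
    change ((a ^ T.m Y * b ^ T.m X) ^ t * ((Y₁.map Prod.fst).prod * (Y₂.map Prod.fst).prod)) ^
      (e₁ * e₂) = _
    rw [e, mul_pow, pow_mul (a ^ (T.m Y * t) * (Y₁.map Prod.fst).prod), hp₁, mul_comm e₁ e₂,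
      pow_mul (b ^ (T.m X * t) * (Y₂.map Prod.fst).prod), hp₂, T.m_prod, ← pow_mul, ← pow_mul,
      ← pow_mul, ← pow_mul, ← pow_add, ← pow_mul]
    congr 1
    ring
  · refine (congrArg₂ (fun z w => z * w) (hfst Y₁ Y₂) (hfst R₁ R₂)).trans ?_
    change (Y₁.map Prod.fst).prod * (Y₂.map Prod.fst).prod *
      ((R₁.map Prod.fst).prod * (R₂.map Prod.fst).prod) = (p : Ω) ^ (B₁.m * (g₁ + g₂))
    rw [mul_mul_mul_comm, hq₁, hq₂, ← pow_add, ← hm]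
    congr 1
    ring
  · have h1 := Z.ext_mem X Y B₁ B₂ hm i Y₁.length j Y₂.length x hxi
      (wedge (Y₁.map Prod.snd) : ExteriorAlgebra Ω B₁.H) (by
        have := wedge_mem (R := Ω) (Y₁.map Prod.snd)
        rwa [List.length_map] at this) y hyj
      (wedge (Y₂.map Prod.snd) : ExteriorAlgebra Ω B₂.H) (by
        have := wedge_mem (R := Ω) (Y₂.map Prod.snd)
        rwa [List.length_map] at this) hC₁ hC₂
    have e : (wedge ((Y₁.map (fun x => (x.1, ((x.2, 0) : B₁.H × B₂.H))) ++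
        Y₂.map (fun x => (x.1, ((0, x.2) : B₁.H × B₂.H)))).map Prod.snd) :
          ExteriorAlgebra Ω (B₁.H × B₂.H)) =
        ExteriorAlgebra.map (LinearMap.inl Ω B₁.H B₂.H) (wedge (Y₁.map Prod.snd)) *
          ExteriorAlgebra.map (LinearMap.inr Ω B₁.H B₂.H) (wedge (Y₂.map Prod.snd)) := by
      rw [List.map_append, wedge_append, map_wedge, map_wedge, List.map_map, List.map_map,
        List.map_map, List.map_map]
      rfl
    exact (congrArg (fun w : ExteriorAlgebra Ω (B₁.H × B₂.H) => times T (T.prod X Y)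
      (B₁.prod B₂ hm) (T.ext X Y x y) w ∈ Z.C (T.prod X Y) (B₁.prod B₂ hm)) e).mpr h1

end Pool.Agent.V8H77.LT
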