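import Pool.Agent.V8H77.LT.Lef
import Pool.Agent.V8H77.LT.Prod
import Pool.Agent.V8H77.VT.Pure

/-!
# Abelian varieties built from the factors of a given one
-/

set_option autoImplicit false

namespace Pool.Agent.V8H77.LT

open Module TensorProduct Polynomial
open Pool.Agent.V8H94.CT (AbVar HasEigen)
open Pool.Agent.V8H94.TC

variable {p : ℕ} [Fact p.Prime] {Ω : Type} [Field Ω] [CharZero Ω]

theorem built_refl (A : AbVar p Ω) : IsBuiltFrom A A :=
  ⟨1, 1, one_pos, one_pos, rfl, fun a ha => ⟨a, ha, rfl⟩⟩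

theorem built_trans {A B C : AbVar p Ω} (h : IsBuiltFrom A B) (h' : IsBuiltFrom B C) :
    IsBuiltFrom A C := by
  obtain ⟨s, t, hs, ht, hst, h1⟩ := h
  obtain ⟨s', t', hs', ht', hst', h2⟩ := h'
  refine ⟨s * s', t * t', Nat.mul_pos hs hs', Nat.mul_pos ht ht', ?_, fun a ha => ?_⟩
  · calc s * s' * A.m = (s * A.m) * s' := by ring
      _ = (s' * B.m) * t := by rw [hst]; ring
      _ = _ := by rw [hst']; ring
  · obtain ⟨b, hb, hab⟩ := h1 a ha
    obtain ⟨c, hc, hbc⟩ := h2 b hb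
    refine ⟨c, hc, ?_⟩
    rw [pow_mul, hab, ← pow_mul, mul_comm t s', pow_mul, hbc, ← pow_mul, mul_comm t' t]

theorem eigen_prod {A B : AbVar p Ω} (hm : A.m = B.m) {a : Ω} (h : HasEigen (A.prod B hm) a) :
    HasEigen A a ∨ HasEigen B a := by
  obtain ⟨⟨v, w⟩, hvw, h⟩ := h
  have h1 : A.F v = a • v := congrArg Prod.fst h
  have h2 : B.F w = a • w := congrArg Prod.snd h
  by_cases hv : v = 0
  · refine Or.inr ⟨w, ?_, h2⟩
    rintro rfl
    exact hvw (by rw [hv]; rfl)
  · exact Or.inl ⟨v, hv, h1⟩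

theorem built_prod {A A' B : AbVar p Ω} (hm : A.m = A'.m) (h : IsBuiltFrom A B)
    (h' : IsBuiltFrom A' B) : IsBuiltFrom (A.prod A' hm) B := by
  obtain ⟨s, t, hs, ht, hst, h1⟩ := h
  obtain ⟨s', t', hs', ht', hst', h2⟩ := h'
  have key : s * t' = s' * t := by
    have h3 : (s * t') * B.m = (s' * t) * B.m := by
      calc (s * t') * B.m = s * (t' * B.m) := by ring
        _ = s * (s' * A'.m) := by rw [hst']
        _ = s' * (s * A.m) := by rw [hm]; ring
        _ = s' * (t * B.m) := by rw [hst]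
        _ = _ := by ring
    exact Nat.eq_of_mul_eq_mul_right B.m_pos h3
  refine ⟨s * t', t * t', Nat.mul_pos hs ht', Nat.mul_pos ht ht', ?_, fun a ha => ?_⟩
  · change s * t' * A.m = _
    calc s * t' * A.m = (s * A.m) * t' := by ring
      _ = _ := by rw [hst]; ring
  · rcases eigen_prod hm ha with ha | ha
    · obtain ⟨b, hb, hab⟩ := h1 a ha
      exact ⟨b, hb, by rw [pow_mul, hab, ← pow_mul]⟩
    · obtain ⟨b, hb, hab⟩ := h2 a ha
      exact ⟨b, hb, by rw [key, pow_mul, hab, ← pow_mul, mul_comm t' t]⟩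

theorem built_cover {A D B : AbVar p Ω} {n : ℕ} (hn : 0 < n) (hA : IsBuiltFrom A B)
    (hm : D.m = A.m * n) (h : ∀ b, HasEigen D b → ∃ a, HasEigen A a ∧ b = a ^ n) :
    IsBuiltFrom D B := by
  refine built_trans ⟨1, n, one_pos, hn, by rw [hm]; ring, fun b hb => ?_⟩ hA
  obtain ⟨a, ha, hba⟩ := h b hb
  exact ⟨a, ha, by rw [pow_one, hba]⟩

/-- The abelian varieties built from the factors of `B` are a class. -/
theorem isClass_built (B : AbVar p Ω) : IsClass fun A => IsBuiltFrom A B :=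
  ⟨fun _ _ hm h h' => built_prod hm h h', fun _ _ _ hn hA hm h => built_cover hn hA hm h⟩

end Pool.Agent.V8H77.LT
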