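import Pool.Agent.V8H77.LT.Xi

/-!
# Finitely many classes decide
-/

set_option autoImplicit false

namespace Pool.Agent.V8H77.LT

open Module TensorProduct Polynomial
open Pool.Agent.V8H94.CT hiding IsBuiltFrom
open Pool.Agent.V8H94.VT
open Pool.Agent.V8H94.TC (IsBuiltFrom Coh deg pullFst pullSnd frobPow)
open Pool.Agent.V8H77.VT

variable {p : ℕ} [Fact p.Prime] {Ω : Type} [Field Ω] [CharZero Ω]

/-- The Kuenneth component `H ^ i (X) ⊗ H ^ i (B)`. -/
noncomputable def comp (T : Cohomology p Ω) (X : T.V) (B : AbVar p Ω) (i : ℕ) : Submodule Ω (Coh₂ T X B) :=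
  Submodule.span Ω {t | ∃ x ∈ T.gr X i, ∃ b ∈ deg B i, t = times T X B x b}

theorem top_mem {n i : ℕ} {B : AbVar p Ω} (u : Fin n × Fin (i + 1) → B.H) (j : Fin n) :
    (top u j : ExteriorAlgebra Ω B.H) ∈ deg B i := by
  have h := wedge_mem (R := Ω) (List.ofFn fun l : Fin i => u (j, l.castSucc))
  rw [List.length_ofFn] at h
  exact h

/-- **Finitely many classes decide about the cohomology of finitely many varieties.** -/
theorem exists_data [IsAlgClosed Ω] (T : Cohomology p Ω) {W : Set T.V} (hW : W.Finite) :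
    ∃ (B : AbVar p Ω) (ξ : ∀ X : T.V, ℕ → Coh₂ T X B),
      (∀ X ∈ W, ∀ i ≤ T.dim X, ξ X i ∈ comp T X B i ∧ IsGenTate T X B i (ξ X i)) ∧
      ∀ (P₀ : AbVar p Ω → Prop), (∀ D : AbVar p Ω, IsBuiltFrom D B → P₀ D) → ∀ Z : Cycles T,
        (∀ X ∈ W, ∀ i ≤ 1, TateInDegree Z X i) →
        (∀ X ∈ W, ∀ i, 2 ≤ i → i ≤ T.dim X → ξ X i ∈ Z.C X B) →
        ∀ X ∈ W, ∀ i ≤ T.dim X, T.gr X i ≤ Submodule.span Ω {x | IsDomIn P₀ Z X x} := by
  classical
  choose n x a k hfam hspan using fun (X : T.V) (i : ℕ) => exists_family T X i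
  choose v e he hv hrel using fun (X : T.V) (i : ℕ) (j : Fin (n X i)) =>
    exists_partner (hfam X i j).2.2
  let k₀ : ℕ := ∏ X ∈ hW.toFinset, T.m X
  have hk₀ : 0 < k₀ := Finset.prod_pos fun X _ => T.m_pos X
  let c : T.V → ℕ := fun X => k₀ / T.m X
  have hc : ∀ X ∈ W, k₀ = T.m X * c X := by
    intro X hX
    have h1 : T.m X ∣ k₀ := Finset.dvd_prod_of_mem T.m (hW.mem_toFinset.2 hX)
    exact (Nat.mul_div_cancel' h1).symm
  have hc0 : ∀ X ∈ W, 0 < c X := by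
    intro X hX
    rcases Nat.eq_zero_or_pos (c X) with h | h
    · have := hc X hX
      rw [h, mul_zero] at this
      omega
    · exact h
  let J : Type := Σ X : hW.toFinset, Σ i : Fin (T.dim X.1 + 1), Fin (n X.1 i.1) × Fin (i.1 + 1)
  let f : J → Ω := fun q => v q.1.1 q.2.1.1 q.2.2.1 ^ c q.1.1
  have hf : ∀ q : J, IsWeil p k₀ (f q) := by
    intro q
    have hX : q.1.1 ∈ W := hW.mem_toFinset.1 q.1.2
    have h1 := (hv q.1.1 q.2.1.1 q.2.2.1).pow (hc0 _ hX)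
    rw [← hc _ hX] at h1
    exact h1
  obtain ⟨B, u, hBm, -, hu, huniv⟩ := exists_universal' (p := p) hk₀ (W := {w : Ω | IsWeil p k₀ w})
    (fun w hw b hb => isWeil_root hw hb) f (fun q => ⟨hf q, hf q⟩)
  have huniv' : IsUniversal B f u := huniv
  let u' : ∀ (X : T.V) (i : ℕ), Fin (n X i) × Fin (i + 1) → B.H := fun X i q =>
    if h : X ∈ hW.toFinset ∧ i < T.dim X + 1 then u ⟨⟨X, h.1⟩, ⟨i, h.2⟩, q⟩ else 0
  have hu' : ∀ X ∈ W, ∀ i ≤ T.dim X, ∀ q, B.F (u' X i q) = v X i q.1 ^ c X • u' X i q := by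
    intro X hX i hi q
    have h : X ∈ hW.toFinset ∧ i < T.dim X + 1 := ⟨hW.mem_toFinset.2 hX, by omega⟩
    have e1 : u' X i q = u ⟨⟨X, h.1⟩, ⟨i, h.2⟩, q⟩ := dif_pos h
    rw [e1, hu]
  have huv : ∀ X ∈ W, ∀ i ≤ T.dim X,
      IsUniversal B (fun q : Fin (n X i) × Fin (i + 1) => v X i q.1 ^ c X) (u' X i) := by
    intro X hX i hi
    have h : X ∈ hW.toFinset ∧ i < T.dim X + 1 := ⟨hW.mem_toFinset.2 hX, by omega⟩
    have h1 := huniv'.comp (fun q : Fin (n X i) × Fin (i + 1) => (⟨⟨X, h.1⟩, ⟨i, h.2⟩, q⟩ : J))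
      (fun q q' hq => eq_of_heq (Sigma.mk.inj (eq_of_heq (Sigma.mk.inj hq).2)).2)
    have e1 : u' X i = fun q => u ⟨⟨X, h.1⟩, ⟨i, h.2⟩, q⟩ := by
      funext q
      exact dif_pos h
    rw [e1]
    exact h1
  have hBm' : ∀ X ∈ W, B.m = T.m X * c X := fun X hX => by rw [hBm, ← hc X hX]
  refine ⟨B, fun X i => ∑ j, times T X B (x X i j) (top (u' X i) j), ?_, ?_⟩
  · intro X hX i hi
    refine ⟨Submodule.sum_mem _ fun j _ => Submodule.subset_span
      ⟨x X i j, (hfam X i j).1, _, top_mem _ j, rfl⟩, ?_⟩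
    exact isGenTate_sum (hu' X hX i hi) (hc0 X hX) (hBm' X hX) (he X i)
      (fun j => (hfam X i j).2.1) (hrel X i)
  · intro P₀ hP₀ Z hlow hξ X hX i hi
    refine span_of_members Z (huv X hX i hi) (hu' X hX i hi) (hc0 X hX) (hBm' X hX) (hv X i)
      (he X i) (fun j => (hfam X i j).1) (fun j => (hfam X i j).2.1)
      (fun j => (hfam X i j).2.2) (hrel X i) (hspan X i) hP₀ ?_
    rcases Nat.lt_or_ge i 2 with h | h
    · intro j
      exact hlow X hX i (by omega) B _ (hfam X i j).1 _ (top_mem _ j)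
        (isGenTate_term (hu' X hX i hi) (hc0 X hX) (hBm' X hX) (he X i)
          (fun j => (hfam X i j).2.1) (hrel X i) j)
    · exact members_of_sum Z (huv X hX i hi) (hu' X hX i hi) (by omega) (hξ X hX i h hi)

end Pool.Agent.V8H77.LT
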