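import Pool.Agent.V8H94.VT.Mem
import Pool.Agent.V8H94.VT.Gen2
import Pool.Agent.V8H94.CT.Pub2

/-!
# Classes dominated by abelian varieties of a given kind
-/

set_option autoImplicit false

namespace Pool.Agent.V8H77.LT

open Module TensorProduct Polynomial
open Pool.Agent.V8H94.CT Pool.Agent.V8H94.TC
open Pool.Agent.V8H94.VT

variable {p : ℕ} [Fact p.Prime] {Ω : Type} [Field Ω] [CharZero Ω]

/-- A class of abelian varieties which is closed under products and under varieties over a finite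
extension whose Frobenius eigenvalues are powers of those of a variety in the class. -/
structure IsClass (P : AbVar p Ω → Prop) : Prop where
  prod : ∀ (A B : AbVar p Ω) (hm : A.m = B.m), P A → P B → P (A.prod B hm)
  cover : ∀ (A D : AbVar p Ω) (n : ℕ), 0 < n → P A → D.m = A.m * n →
    (∀ b, HasEigen D b → ∃ a, HasEigen A a ∧ b = a ^ n) → P D

/-- The class `x` on `X` is dominated by abelian varieties in the class `P`. -/
def IsDomIn (P : AbVar p Ω → Prop) {T : Cohomology p Ω} (Z : Cycles T) (X : T.V) (x : T.H X) : Prop :=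
  ∃ (i k c : ℕ) (a : Ω), x ∈ T.gr X i ∧ ((T.F X - a • LinearMap.id) ^ k : T.H X →ₗ[Ω] T.H X) x = 0 ∧
    IsPure p (T.m X * i) a ∧ ∀ t : ℕ, 0 < t →
      ∃ (B : AbVar p Ω) (N g e : ℕ) (b : Basis (Fin N) Ω B.H) (Y R : List (Ω × B.H)), P B ∧
        B.m = T.m X * t ∧ (∀ y ∈ Y, B.F y.2 = y.1 • y.2) ∧ (∀ y ∈ R, B.F y.2 = y.1 • y.2) ∧
        (Y.map Prod.snd ++ R.map Prod.snd).Perm (List.ofFn b) ∧ N = 2 * g ∧ 0 < e ∧
        i + Y.length = 2 * c ∧
        (a ^ t * (Y.map Prod.fst).prod) ^ e = ((p : Ω) ^ (T.m X * t * c)) ^ e ∧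
        (Y.map Prod.fst).prod * (R.map Prod.fst).prod = (p : Ω) ^ (B.m * g) ∧
        times T X B x (wedge (Y.map Prod.snd) : ExteriorAlgebra Ω B.H) ∈ Z.C X B

/-- The conjugates of powers of eigenvalues are powers of eigenvalues. -/
theorem root_pow [IsAlgClosed Ω] (A : AbVar p Ω) {a : Ω} (ha : HasEigen A a) (n : ℕ) {y : Ω}
    (hy : aeval y (minpoly ℚ (a ^ n)) = 0) : ∃ a', HasEigen A a' ∧ y = a' ^ n := by
  obtain ⟨v, hv, hav⟩ := ha
  have halg : IsAlgebraic ℚ a := isAlgebraic_of_isIntegral (isWeil_of_eigen A hv hav).1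
  obtain ⟨x, hx⟩ := exists_lift halg
  have hxt : ((x ^ n : algebraicClosure ℚ Ω) : Ω) = a ^ n := by
    rw [← hx]; rfl
  rw [← hxt] at hy
  obtain ⟨ψ, hψ⟩ := exists_emb_of_root (x ^ n) hy
  rw [map_pow] at hψ
  refine ⟨ψ x, ?_, hψ.symm⟩
  refine (eigen_iff A (ψ x)).2 ?_
  obtain ⟨f, -, hf⟩ := A.frob
  have h1 : aeval a f = 0 := by
    have h2 := (eigen_iff A a).1 ⟨v, hv, hav⟩
    rw [hf, IsRoot.def, eval_map, ← aeval_def] at h2
    exact h2
  have h3 : aeval x f = 0 := by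
    have h4 : algebraMap (algebraicClosure ℚ Ω) Ω (aeval x f) = 0 := by
      rw [← aeval_algebraMap_apply]
      change aeval (x : Ω) f = 0
      rw [hx]
      exact h1
    exact (map_eq_zero_iff _ (algebraMap (algebraicClosure ℚ Ω) Ω).injective).1 h4
  rw [hf, IsRoot.def, eval_map, ← aeval_def, aeval_algHom_apply, h3, map_zero]

/-- The abelian variety with given eigenvectors. -/
theorem exists_cover_level [IsAlgClosed Ω] (A : AbVar p Ω) {n : ℕ} (hn : 0 < n)
    (U : List (Ω × A.H)) (hU : ∀ u ∈ U, A.F u.2 = u.1 • u.2) (h0 : ∀ u ∈ U, u.2 ≠ 0) :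
    ∃ (D : AbVar p Ω) (h : D.H →ₗ[Ω] A.H) (U' : List (Ω × D.H)), D.m = A.m * n ∧
      (∀ b, HasEigen D b → ∃ a, HasEigen A a ∧ b = a ^ n) ∧
      V8H94.CT.IsHom A D h ∧ (∀ u ∈ U', D.F u.2 = u.1 • u.2) ∧
      U'.map Prod.fst = U.map (fun u => u.1 ^ n) ∧ (U'.map Prod.snd).map h = U.map Prod.snd := by
  have hE : ∀ i : Fin U.length, HasEigen A (U.get i).1 := fun i =>
    ⟨(U.get i).2, h0 _ (List.get_mem _ _), hU _ (List.get_mem _ _)⟩
  have hw : ∀ i : Fin U.length, IsWeil p (A.m * n) ((U.get i).1 ^ n) := fun i =>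
    (isWeil_of_eigen A (h0 _ (List.get_mem _ _)) (hU _ (List.get_mem _ _))).pow hn
  obtain ⟨D, u, hDm, hDW, hu, hD⟩ := exists_universal' (p := p) (k := A.m * n)
    (Nat.mul_pos A.m_pos hn) (W := {w : Ω | ∃ a, HasEigen A a ∧ w = a ^ n})
    (by
      rintro w ⟨a, ha, rfl⟩ b hb
      exact root_pow A ha n hb) (fun i : Fin U.length => (U.get i).1 ^ n)
    (fun i => ⟨hw i, _, hE i, rfl⟩)
  obtain ⟨h, hh, hhu⟩ := hD A n 1 (fun i => (U.get i).2) (by
    intro i
    rw [pow_one, pow_apply_eigen (hU _ (List.get_mem _ _))])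
  refine ⟨D, h, List.ofFn fun i => ((U.get i).1 ^ n, u i), hDm, ?_,
    ⟨n, 1, hn, one_pos, by rw [hDm]; ring, hh⟩, ?_, ?_, ?_⟩
  · rintro b ⟨v, hv, hb⟩
    exact hDW b v hv hb
  · intro y hy
    obtain ⟨i, rfl⟩ := (List.mem_ofFn' _ y).1 hy
    exact hu i
  · rw [List.map_ofFn]
    apply List.ext_get
    · simp
    · intro k h1 h2
      simp
  · rw [List.map_ofFn, List.map_ofFn]
    apply List.ext_get
    · simp
    · intro k h1 h2
      simp only [List.get_ofFn, Function.comp_apply, hhu]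
      simp

end Pool.Agent.V8H77.LT
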