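import Pool.Agent.V8H77.LT.Data
import Pool.Agent.V8H94.VT.Main

/-!
# Finitely many classes decide, the main theorem
-/

set_option autoImplicit false

namespace Pool.Agent.V8H77.LT

open Module TensorProduct Polynomial
open Pool.Agent.V8H94.CT (AbVar HasEigen)
open Pool.Agent.V8H94.VT
open Pool.Agent.V8H94.TC (IsBuiltFrom Coh deg pullFst pullSnd frobPow TateHolds GeneralisedTateFor
  IsSupersingularClass eigenField TateHoldsFor generalised_of_one_class)
open Pool.Agent.V8H77.VT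

variable {p : ℕ} [Fact p.Prime] {Ω : Type} [Field Ω] [CharZero Ω]

/-- The cohomology of `X` is dominated if it is so up to the middle degree. -/
theorem span_dom' {P₀ : AbVar p Ω → Prop} {T : Cohomology p Ω} (Z : Cycles T) (X : T.V)
    (hlow : ∀ i ≤ T.dim X, T.gr X i ≤ Submodule.span Ω {x | IsDomIn P₀ Z X x}) :
    Submodule.span Ω {x | IsDomIn P₀ Z X x} = ⊤ := by
  set S := Submodule.span Ω {x | IsDomIn P₀ Z X x} with hS
  have hL : ∀ x ∈ S, T.L X x ∈ S := by
    intro x hx
    have h1 : S ≤ S.comap (T.L X) := by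
      rw [hS]
      refine Submodule.span_le.2 ?_
      intro x hx
      exact Submodule.subset_span (IsDomIn.L hx (isPure_step (T.m X)))
    exact h1 hx
  have hLn : ∀ (n : ℕ), ∀ x ∈ S, (T.L X ^ n) x ∈ S := by
    intro n
    induction n with
    | zero => intro x hx; exact hx
    | succ n ih =>
      intro x hx
      rw [pow_succ', Module.End.mul_apply]
      exact hL _ (ih x hx)
  rw [eq_top_iff, ← T.span_gr X]
  refine iSup_le fun j => ?_
  rcases Nat.le_total j (T.dim X) with hj | hj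
  · exact hlow j hj
  · obtain ⟨i, rfl⟩ := Nat.exists_eq_add_of_le hj
    intro y hy
    obtain ⟨x, hx, rfl⟩ := T.lefschetz X i y hy
    exact hLn i x (hlow _ (Nat.sub_le _ _) hx)

/-- The cohomology of a product of members of `W` is dominated. -/
theorem span_dom_product {P₀ : AbVar p Ω → Prop} (hcl : IsClass P₀) {T : Cohomology p Ω}
    (Z : Cycles T) {W : Set T.V} (hW : ∀ X ∈ W, Submodule.span Ω {x | IsDomIn P₀ Z X x} = ⊤)
    {X : T.V} (hX : IsProduct T W X) : Submodule.span Ω {x | IsDomIn P₀ Z X x} = ⊤ := by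
  induction hX with
  | of X hX => exact hW X hX
  | prod X Y _ _ ihX ihY =>
    rw [eq_top_iff, ← span_bilin (T.ext X Y) ihX ihY (T.span_ext X Y)]
    refine Submodule.span_mono ?_
    rintro _ ⟨x, hx, y, hy, rfl⟩
    exact IsDomIn.ext hcl hx hy

/-- **Finitely many classes decide about the strong Tate conjecture.** -/
theorem finitely_many_classes [IsAlgClosed Ω] (T : Cohomology p Ω) {W : Set T.V} (hW : W.Finite) :
    ∃ (A B : AbVar p Ω) (ξ : ∀ X : T.V, ℕ → Coh₂ T X A) (y z : Coh B),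
      IsBuiltFrom A B ∧
      (∀ X ∈ W, ∀ i ≤ T.dim X, ξ X i ∈ comp T X A i ∧ IsGenTate T X A i (ξ X i)) ∧
      IsSupersingularClass B 3 y ∧ IsSupersingularClass B 1 z ∧
      ∀ Z : Cycles T, TateHolds Z.S B 1 → (∀ X ∈ W, ∀ i ≤ 1, TateInDegree Z X i) →
        ((GeneralisedTateFor Z.S B ∧
            ∀ X, IsProduct T W X → ∀ C, IsBuiltFrom C B → StrongTate Z X C) ↔
          (y * z ∈ Z.S.C B ∧ ∀ X ∈ W, ∀ i, 2 ≤ i → i ≤ T.dim X → ξ X i ∈ Z.C X A)) := by
  obtain ⟨A, ξ, hξ, hdata⟩ := exists_data T hW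
  obtain ⟨B, y, z, hAB, -, hy, hz, hone⟩ := generalised_of_one_class A
  refine ⟨A, B, ξ, y, z, hAB, hξ, hy, hz, fun Z hdiv hlow => ⟨?_, ?_⟩⟩
  · rintro ⟨hgt, hst⟩
    have h1 := ((hone Z.S hdiv).out 0 4).1 hgt
    refine ⟨h1, fun X hX i _ hi => ?_⟩
    exact hst X (IsProduct.of X hX) A hAB i _ (hξ X hX i hi).2
  · rintro ⟨hyz, hmem⟩
    have hgt := ((hone Z.S hdiv).out 4 0).1 hyz
    have hT := ((hone Z.S hdiv).out 4 1).1 hyz
    refine ⟨hgt, fun X hX C hC => ?_⟩
    have hcl := isClass_built B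
    have hspan : ∀ X ∈ W, Submodule.span Ω {x | IsDomIn (fun A => IsBuiltFrom A B) Z X x} = ⊤ :=
      fun X hX => span_dom' Z X (hdata _ (fun D hD => built_trans hD hAB) Z hlow hmem X hX)
    exact strongTate_of_span hcl Z (fun D hD r => hT D hD r) (span_dom_product hcl Z hspan hX)
      (fun i r s s' a A U hs hs' hss ha hU hU0 hrel =>
        weight_of_relation (T.m_pos X) i r s s' a A U hs hs' hss ha hU hU0 hrel) C hC

end Pool.Agent.V8H77.LT
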