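import Pool.Agent.V8H77.LT.Built

/-!
# One member of the system dominates a class on `X`
-/

set_option autoImplicit false

namespace Pool.Agent.V8H77.LT

open Module TensorProduct Polynomial
open Pool.Agent.V8H94.CT hiding IsBuiltFrom
open Pool.Agent.V8H94.VT
open Pool.Agent.V8H94.TC (IsBuiltFrom Coh deg pullFst pullSnd frobPow)
open Pool.Agent.V8H77.VT

variable {p : ℕ} [Fact p.Prime] {Ω : Type} [Field Ω] [CharZero Ω]

/-- A Weil number whose power is complementary to the pure number `a`. -/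
theorem exists_partner [IsAlgClosed Ω] {m i : ℕ} {a : Ω} (ha : IsPure p (m * i) a) :
    ∃ (v : Ω) (e : ℕ), 0 < e ∧ IsWeil p m v ∧ (a * v ^ i) ^ e = ((p : Ω) ^ (m * i)) ^ e := by
  have hp : (p : Ω) ≠ 0 := Nat.cast_ne_zero.2 (Fact.out : p.Prime).ne_zero
  rcases Nat.eq_zero_or_pos i with rfl | hi
  · rw [mul_zero] at ha
    obtain ⟨e, he, h⟩ := pow_eq_one_of_pure ha
    have h1 : IsPure p (m * 2) ((p : Ω) ^ m) := by
      rw [mul_comm]; exact isPure_natCast_pow m
    obtain ⟨v, _, hv⟩ := exists_pure_root two_pos h1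
    exact ⟨v, e, he, hv, by rw [pow_zero, mul_one, h, mul_zero, pow_zero, one_pow]⟩
  · obtain ⟨w, hw, hwW⟩ := exists_pure_root hi ha
    have hw0 : w ≠ 0 := by
      intro h0
      have h1 := hwW.2 0 (by rw [h0, minpoly.zero]; simp)
      rw [norm_zero, zero_pow two_ne_zero] at h1
      have : (0 : ℝ) < (p : ℝ) ^ m := by
        have := (Fact.out : p.Prime).pos
        positivity
      exact this.ne h1
    refine ⟨(p : Ω) ^ m / w, 1, one_pos, hwW.isIsotypic.isWeil hwW.conj_root, ?_⟩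
    rw [pow_one, pow_one, div_pow, hw, ← pow_mul, mul_div_cancel₀]
    rw [← hw]
    exact pow_ne_zero _ hw0

/-- The universal property of the vectors `u j` for the eigenvalues `f j`. -/
def IsUniversal (B : AbVar p Ω) {J : Type} (f : J → Ω) (u : J → B.H) : Prop :=
  ∀ (C : AbVar p Ω) (s t : ℕ) (v : J → C.H), (∀ j, (C.F ^ s) (v j) = (f j) ^ t • v j) →
    ∃ h : B.H →ₗ[Ω] C.H, h ∘ₗ (B.F ^ t) = (C.F ^ s) ∘ₗ h ∧ ∀ j, h (u j) = v j

/-- **A class on `X` is dominated if one product with eigenvectors on a universal object belongs to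
the system.** -/
theorem dom_of_member [IsAlgClosed Ω] {P₀ : AbVar p Ω → Prop} {T : Cohomology p Ω} (Z : Cycles T)
    (X : T.V) {i : ℕ} {x : T.H X} (hx : x ∈ T.gr X i) {a : Ω} {k : ℕ}
    (hk : ((T.F X - a • LinearMap.id) ^ k : T.H X →ₗ[Ω] T.H X) x = 0)
    (ha : IsPure p (T.m X * i) a) {v : Ω} {e : ℕ} (he : 0 < e) (hv : IsWeil p (T.m X) v)
    (hrel : (a * v ^ i) ^ e = ((p : Ω) ^ (T.m X * i)) ^ e) {B : AbVar p Ω} {c : ℕ} (hc : 0 < c)
    (hBm : B.m = T.m X * c) {J : Type} {f : J → Ω} {u : J → B.H} (huniv : IsUniversal B f u)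
    (hB : ∀ D : AbVar p Ω, IsBuiltFrom D B → P₀ D)
    (hvB : HasEigen B (v ^ c)) (ι : Fin i → J) (hι : Function.Injective ι)
    (hf : ∀ l, f (ι l) = v ^ c)
    (hmem : times T X B x (wedge (List.ofFn fun l => u (ι l)) : ExteriorAlgebra Ω B.H) ∈ Z.C X B) :
    IsDomIn P₀ Z X x := by
  classical
  refine ⟨i, k, i, a, hx, hk, ha, fun t ht => ?_⟩
  have hm := T.m_pos X
  have hmt : 0 < T.m X * t := Nat.mul_pos hm ht
  have hvt : IsWeil p (T.m X * t) (v ^ t) := hv.pow ht
  -- conjugates of `v ^ t`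
  have hconj : ∀ w : Ω, (∃ v', aeval v' (minpoly ℚ v) = 0 ∧ w = v' ^ t) → ∀ b : Ω,
      aeval b (minpoly ℚ w) = 0 → ∃ v', aeval v' (minpoly ℚ v) = 0 ∧ b = v' ^ t := by
    rintro w ⟨v', hv', rfl⟩ b hb
    have hvi : IsIntegral ℚ v := hv.1.tower_top
    have hmin : minpoly ℚ v = minpoly ℚ v' :=
      minpoly.eq_of_irreducible_of_monic (minpoly.irreducible hvi) hv' (minpoly.monic hvi)
    have halg : IsAlgebraic ℚ v' := ⟨minpoly ℚ v, minpoly.ne_zero hvi, hv'⟩
    obtain ⟨y, hy⟩ := exists_lift halg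
    have hyt : ((y ^ t : algebraicClosure ℚ Ω) : Ω) = v' ^ t := by
      rw [← hy]; rfl
    rw [← hyt] at hb
    obtain ⟨ψ, hψ⟩ := exists_emb_of_root (y ^ t) hb
    rw [map_pow] at hψ
    refine ⟨ψ y, ?_, hψ.symm⟩
    rw [hmin, ← hy]
    exact root_of_emb ψ y
  obtain ⟨D, N, g, b, Y, R, hDm, hDW, hY, hR, hYw, hP, hN, hprod⟩ :=
    exists_basis_cover (p := p) hmt (W := {y : Ω | ∃ v', aeval v' (minpoly ℚ v) = 0 ∧ y = v' ^ t})
      (fun y hy z hz => hconj y hy z hz) (List.replicate i (v ^ t))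
      (fun y hy => by
        rw [List.eq_of_mem_replicate hy]
        exact ⟨hvt, v, minpoly.aeval ℚ v, rfl⟩)
  have hYl : Y.length = i := by
    have := congrArg List.length hYw
    rwa [List.length_map, List.length_replicate] at this
  have hPD : P₀ D := by
    refine hB D ⟨c, t, hc, ht, by rw [hDm, hBm]; ring, ?_⟩
    rintro b ⟨y, hy0, hby⟩
    obtain ⟨v', hv', rfl⟩ := hDW b y hy0 hby
    -- `v' ^ c` is an eigenvalue of `B`
    have h1 : aeval (v' ^ c) (minpoly ℚ ((v ^ c) ^ 1)) = 0 := by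
      rw [pow_one]
      have hvi : IsIntegral ℚ v := hv.1.tower_top
      have h2 : minpoly ℚ v ∣ (minpoly ℚ (v ^ c)).comp (Polynomial.X ^ c) := by
        apply minpoly.dvd
        rw [aeval_comp, map_pow, aeval_X, minpoly.aeval]
      obtain ⟨Q, hQ⟩ := h2
      have h3 := congrArg (aeval v') hQ
      rw [aeval_comp, map_pow, aeval_X, map_mul, hv', zero_mul] at h3
      exact h3
    obtain ⟨a', ha', hva⟩ := root_pow B hvB 1 h1
    rw [pow_one] at hva
    refine ⟨a', ha', ?_⟩
    rw [← hva, ← pow_mul, ← pow_mul, mul_comm]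
  refine ⟨D, N, g, e, b, Y, R, hPD, hDm, hY, hR, hP, hN, he, by omega, ?_, ?_, ?_⟩
  · rw [hYw, List.prod_replicate]
    calc (a ^ t * (v ^ t) ^ i) ^ e = ((a * v ^ i) ^ e) ^ t := by
          rw [mul_pow, mul_pow, mul_pow]; ring
      _ = _ := by rw [hrel]; ring
  · rw [hYw, hprod, hDm, ← pow_mul]
  · -- pull back
    obtain ⟨h, hh, hhu⟩ := huniv D c t (fun j => if hj : ∃ l, ι l = j then
      (Y.get ((Classical.choose hj).cast hYl.symm)).2 else 0) (by
        intro j
        by_cases hj : ∃ l, ι l = j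
        · rw [dif_pos hj]
          have h1 := hY _ (List.get_mem Y ((Classical.choose hj).cast hYl.symm))
          have h2 : (Y.get ((Classical.choose hj).cast hYl.symm)).1 = v ^ t := by
            have h3 : (Y.get ((Classical.choose hj).cast hYl.symm)).1 ∈ Y.map Prod.fst :=
              List.mem_map_of_mem (List.get_mem Y _)
            rw [hYw] at h3
            exact List.eq_of_mem_replicate h3
          have h4 : f j = v ^ c := by
            have := hf (Classical.choose hj)
            rwa [Classical.choose_spec hj] at this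
          rw [pow_apply_eigen h1, h2, h4, ← pow_mul, ← pow_mul, mul_comm]
        · rw [dif_neg hj, map_zero, smul_zero])
    have hu : ∀ l : Fin i, h (u (ι l)) = (Y.get (l.cast hYl.symm)).2 := by
      intro l
      have hj : ∃ l', ι l' = ι l := ⟨l, rfl⟩
      rw [hhu, dif_pos hj]
      have : Classical.choose hj = l := hι (Classical.choose_spec hj)
      rw [this]
    have h1 := Z.pull_mem X D B h ⟨c, t, hc, ht, by rw [hDm, hBm]; ring, fun w =>
      LinearMap.congr_fun hh w⟩ _ hmem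
    replace h1 := mem_of_map h1
    have h2 : pullLin D B h (wedge (List.ofFn fun l => u (ι l)) : ExteriorAlgebra Ω B.H) =
        (wedge (Y.map Prod.snd) : ExteriorAlgebra Ω D.H) := by
      refine (map_wedge h _).trans ?_
      congr 1
      rw [List.map_ofFn]
      apply List.ext_get
      · rw [List.length_ofFn, List.length_map, hYl]
      · intro n h1 h2
        rw [List.get_ofFn, List.get_eq_getElem, List.getElem_map, Function.comp_apply, hu]
        rfl
    rw [h2] at h1
    exact h1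

end Pool.Agent.V8H77.LT
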