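import Pool.Agent.V8H77.LT.Final
import Pool.Agent.V8H77.VT.Semi

/-!
# Semisimplicity
-/

set_option autoImplicit false

namespace Pool.Agent.V8H77.LT

open Module TensorProduct Polynomial
open Pool.Agent.V8H94.CT hiding IsBuiltFrom
open Pool.Agent.V8H94.VT
open Pool.Agent.V8H94.TC (IsBuiltFrom Coh deg pullFst pullSnd frobPow)
open Pool.Agent.V8H77.VT

variable {p : ℕ} [Fact p.Prime] {Ω : Type} [Field Ω] [CharZero Ω]

/-- Dominated classes are eigenvectors. -/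
theorem eigen_of_dom {P₀ : AbVar p Ω → Prop} {T : Cohomology p Ω} {Z : Cycles T}
    {X : T.V} (hcyc : CyclesAreTate Z X) {x : T.H X} (hx : IsDomIn P₀ Z X x) :
    ∃ a : Ω, T.F X x = a • x := by
  have hp : (p : Ω) ≠ 0 := Nat.cast_ne_zero.2 (Fact.out : p.Prime).ne_zero
  obtain ⟨i, k, c, a, -, hk, -, hdom⟩ := hx
  refine ⟨a, ?_⟩
  obtain ⟨B, N, g, e, b, Y, R, -, hBm, hY, -, hP, -, he, -, hrel, -, hC⟩ := hdom 1 one_pos
  rw [mul_one] at hBm hrel
  rw [pow_one] at hrel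
  have hgen : IsGenTate T X B c
      (times T X B x (wedge (Y.map Prod.snd) : ExteriorAlgebra Ω B.H)) := by
    refine ⟨e, e, k, he, he, by rw [hBm], ?_⟩
    let K : ExteriorAlgebra Ω B.H →ₗ[Ω] ExteriorAlgebra Ω B.H :=
      (ExteriorAlgebra.map (B.F ^ e)).toLinearMap
    have h2 : K (wedge (Y.map Prod.snd)) =
        ((Y.map Prod.fst).prod ^ e) • wedge (R := Ω) (Y.map Prod.snd) :=
      map_pow_wedge_eigen B.F Y hY e
    have h3 := gen_tmul_zero (T.F X ^ e) K h2 (gen_pow (T.F X) e hk)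
    have h4 : a ^ e * (Y.map Prod.fst).prod ^ e = (p : Ω) ^ (T.m X * e * c) := by
      rw [← mul_pow, hrel, ← pow_mul]
      congr 1
      ring
    rw [h4] at h3
    exact h3
  obtain ⟨s, s', hs, hs', hss, h⟩ := hcyc B c _ hC hgen
  let K : ExteriorAlgebra Ω B.H →ₗ[Ω] ExteriorAlgebra Ω B.H :=
    (ExteriorAlgebra.map (B.F ^ s')).toLinearMap
  have h2 : K (wedge (Y.map Prod.snd)) =
      ((Y.map Prod.fst).prod ^ s') • wedge (R := Ω) (Y.map Prod.snd) :=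
    map_pow_wedge_eigen B.F Y hY s'
  have h3 : ((T.F X ^ s) x) ⊗ₜ[Ω] K (wedge (Y.map Prod.snd)) =
      (p : Ω) ^ (T.m X * s * c) • (x ⊗ₜ[Ω] (wedge (R := Ω) (Y.map Prod.snd))) := h
  rw [h2, TensorProduct.tmul_smul, TensorProduct.smul_tmul', TensorProduct.smul_tmul',
    ← sub_eq_zero, ← TensorProduct.sub_tmul] at h3
  have h4 := tmul_cancel (wedge_ne_zero b hP) h3
  rw [sub_eq_zero] at h4
  have hc : (Y.map Prod.fst).prod ^ s' ≠ 0 := by
    intro h0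
    have h0' : (Y.map Prod.fst).prod = 0 := pow_eq_zero_iff (hs'.ne') |>.1 h0
    rw [h0', mul_zero, zero_pow he.ne'] at hrel
    exact pow_ne_zero _ (pow_ne_zero _ hp) hrel.symm
  have h5 : (T.F X ^ s) x = ((p : Ω) ^ (T.m X * s * c) / (Y.map Prod.fst).prod ^ s') • x := by
    rw [div_eq_inv_mul, mul_smul, ← h4, smul_smul, inv_mul_cancel₀ hc, one_smul]
  have ha0 : a ≠ 0 := by
    intro h0
    rw [h0, zero_mul, zero_pow he.ne'] at hrel
    exact pow_ne_zero _ (pow_ne_zero _ hp) hrel.symm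
  exact eigen_of_pow (T.F X) ha0 hs hk h5

/-- **Finitely many classes decide about the strong Tate conjecture, and imply semisimplicity.** -/
theorem finitely_many_classes' [IsAlgClosed Ω] (T : Cohomology p Ω) {W : Set T.V}
    (hW : W.Finite) :
    ∃ (A B : AbVar p Ω) (ξ : ∀ X : T.V, ℕ → Coh₂ T X A) (y z : Coh B),
      IsBuiltFrom A B ∧
      (∀ X ∈ W, ∀ i ≤ T.dim X, ξ X i ∈ comp T X A i ∧ IsGenTate T X A i (ξ X i)) ∧
      Pool.Agent.V8H94.TC.IsSupersingularClass B 3 y ∧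
      Pool.Agent.V8H94.TC.IsSupersingularClass B 1 z ∧
      ∀ Z : Cycles T, Pool.Agent.V8H94.TC.TateHolds Z.S B 1 →
        (∀ X ∈ W, ∀ i ≤ 1, TateInDegree Z X i) →
        ((Pool.Agent.V8H94.TC.GeneralisedTateFor Z.S B ∧
            ∀ X, IsProduct T W X → ∀ C, IsBuiltFrom C B → StrongTate Z X C) ↔
          (y * z ∈ Z.S.C B ∧ ∀ X ∈ W, ∀ i, 2 ≤ i → i ≤ T.dim X → ξ X i ∈ Z.C X A)) ∧
        ((∀ X ∈ W, ∀ i, 2 ≤ i → i ≤ T.dim X → ξ X i ∈ Z.C X A) →
          ∀ X, IsProduct T W X → CyclesAreTate Z X →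
            Submodule.span Ω {x : T.H X | ∃ a : Ω, T.F X x = a • x} = ⊤) := by
  obtain ⟨A, ξ, hξ, hdata⟩ := exists_data T hW
  obtain ⟨B, y, z, hAB, -, hy, hz, hone⟩ := Pool.Agent.V8H94.TC.generalised_of_one_class A
  have hcl := isClass_built B
  have hdom : ∀ Z : Cycles T, (∀ X ∈ W, ∀ i ≤ 1, TateInDegree Z X i) →
      (∀ X ∈ W, ∀ i, 2 ≤ i → i ≤ T.dim X → ξ X i ∈ Z.C X A) → ∀ X, IsProduct T W X →
        Submodule.span Ω {x | IsDomIn (fun A => IsBuiltFrom A B) Z X x} = ⊤ := by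
    intro Z hlow hmem X hX
    have hspan : ∀ X ∈ W, Submodule.span Ω {x | IsDomIn (fun A => IsBuiltFrom A B) Z X x} = ⊤ :=
      fun X hX => span_dom' Z X (hdata _ (fun D hD => built_trans hD hAB) Z hlow hmem X hX)
    exact span_dom_product hcl Z hspan hX
  refine ⟨A, B, ξ, y, z, hAB, hξ, hy, hz, fun Z hdiv hlow => ⟨⟨?_, ?_⟩, ?_⟩⟩
  · rintro ⟨hgt, hst⟩
    have h1 := ((hone Z.S hdiv).out 0 4).1 hgt
    refine ⟨h1, fun X hX i _ hi => ?_⟩
    exact hst X (IsProduct.of X hX) A hAB i _ (hξ X hX i hi).2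
  · rintro ⟨hyz, hmem⟩
    have hgt := ((hone Z.S hdiv).out 4 0).1 hyz
    have hT := ((hone Z.S hdiv).out 4 1).1 hyz
    refine ⟨hgt, fun X hX C hC => ?_⟩
    exact strongTate_of_span hcl Z (fun D hD r => hT D hD r) (hdom Z hlow hmem X hX)
      (fun i r s s' a A U hs hs' hss ha hU hU0 hrel =>
        weight_of_relation (T.m_pos X) i r s s' a A U hs hs' hss ha hU hU0 hrel) C hC
  · intro hmem X hX hcyc
    rw [eq_top_iff, ← hdom Z hlow hmem X hX]
    refine Submodule.span_mono ?_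
    intro x hx
    exact eigen_of_dom hcyc hx

end Pool.Agent.V8H77.LT
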