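import Pool.Agent.V8H77.LT.PubDefs
import Pool.Agent.V8H77.LT.Semi

/-!
# Finitely many classes decide
-/

set_option autoImplicit false

namespace Pool.Agent.V8H77.LT

open Module TensorProduct
open Pool.Agent.V8H94.CT (AbVar)
open Pool.Agent.V8H94.TC (IsBuiltFrom Coh deg TateHolds GeneralisedTateFor IsSupersingularClass)
open Pool.Agent.V8H94.TV
open Pool.Agent.V8H77.VT (Tate₂ IsSemisimple AreTate isTate_of_semisimple)

variable {p : ℕ} [Fact p.Prime] {Ω : Type} [Field Ω] [CharZero Ω]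

/-- **Finitely many classes decide about the Tate conjecture for all products of finitely many
varieties.** -/
theorem main [IsAlgClosed Ω] (H : Cohomology p Ω) {W : Set H.T.V} (hW : W.Finite) :
    ∃ (A B : AbVar p Ω) (ξ : ∀ X : H.T.V, ℕ → Coh₂ H.T X A) (y z : Coh B),
      IsBuiltFrom A B ∧
      (∀ X ∈ W, ∀ i ≤ H.T.dim X, IsBalanced H.T X A i (ξ X i) ∧ IsGenTate H.T X A i (ξ X i)) ∧
      IsSupersingularClass B 3 y ∧ IsSupersingularClass B 1 z ∧
      ∀ Z : Cycles p H.T, TateHolds Z.S B 1 → (∀ X ∈ W, ∀ i ≤ 1, TateInDegree Z X i) →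
        ((GeneralisedTateFor Z.S B ∧ StrongTateFor Z W B) ↔
          (y * z ∈ Z.S.C B ∧ ∀ X ∈ W, ∀ i, 2 ≤ i → i ≤ H.T.dim X → ξ X i ∈ Z.C X A)) ∧
        (AreTate Z → (StrongTateFor Z W B ↔ TateAndSemisimpleFor Z W B)) := by
  obtain ⟨A, B, ξ, y, z, hAB, hξ, hy, hz, h⟩ := finitely_many_classes' H.toVT hW
  refine ⟨A, B, ξ, y, z, hAB, fun X hX i hi => ⟨(hξ X hX i hi).1,
    (isGenTate_iff H X A i _).2 (hξ X hX i hi).2⟩, hy, hz, fun Z hdiv hlow => ?_⟩
  obtain ⟨h1, h2⟩ := h Z.toVT hdiv fun X hX i hi => (tateInDegree_iff Z X i).1 (hlow X hX i hi)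
  have hprod : ∀ X, V8H94.VT.IsProduct H.toVT W X ↔ IsProduct H.T W X := by
    intro X
    refine ⟨fun hX => ?_, isProduct_of⟩
    induction hX with
    | of X hX => exact IsProduct.of X hX
    | prod X Y _ _ ihX ihY => exact IsProduct.prod X Y ihX ihY
  have hst : ∀ X C, StrongTate Z X C ↔ V8H94.VT.StrongTate Z.toVT X C := by
    intro X C
    exact ⟨fun h r t ht => h r t ((isGenTate_iff H X C r t).2 ht),
      fun h r t ht => h r t ((isGenTate_iff H X C r t).1 ht)⟩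
  refine ⟨⟨?_, ?_⟩, fun hcyc => ⟨?_, ?_⟩⟩
  · rintro ⟨h3, h4⟩
    exact h1.1 ⟨h3, fun X hX C hC => (hst X C).1 (h4 X ((hprod X).1 hX) C hC)⟩
  · intro h3
    obtain ⟨h4, h5⟩ := h1.2 h3
    exact ⟨h4, fun X hX C hC => (hst X C).2 (h5 X ((hprod X).2 hX) C hC)⟩
  · intro h3 X hX
    have hmem : ∀ X ∈ W, ∀ i, 2 ≤ i → i ≤ H.T.dim X → ξ X i ∈ Z.C X A := fun X hX i _ hi =>
      h3 X (IsProduct.of X hX) A hAB i _ ((isGenTate_iff H X A i _).2 (hξ X hX i hi).2)
    have h4 := h2 hmem X ((hprod X).2 hX)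
      (fun A r t ht ht' => hcyc X A r t ht ((isGenTate_iff H X A r t).2 ht'))
    refine ⟨?_, fun C hC r t ht => h3 X hX C hC r t ht.isGenTate⟩
    have e : {x : H.T.H X | ∃ a : Ω, frob H.T X 1 x = a • x} =
        {x : H.T.H X | ∃ a : Ω, H.T.F X x = a • x} := by
      ext x
      simp only [frob, pow_one]
    rw [IsSemisimple, e]
    exact h4
  · intro h3 X hX C hC r t ht
    exact (h3 X hX).2 C hC r t (isTate_of_semisimple (h3 X hX).1 C ht)

end Pool.Agent.V8H77.LT
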