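import Pool.Agent.V8H94.TV.Defs
import Pool.Agent.V8H77.VT.SemiPub

/-!
# Finitely many classes decide, definitions
-/

set_option autoImplicit false

namespace Pool.Agent.V8H77.LT

open Module TensorProduct
open Pool.Agent.V8H94.CT (AbVar)
open Pool.Agent.V8H94.TC (IsBuiltFrom Coh deg)
open Pool.Agent.V8H94.TV
open Pool.Agent.V8H77.VT (Tate₂ IsSemisimple)

variable {p : ℕ} [Fact p.Prime] {Ω : Type} [Field Ω] [CharZero Ω]

/-- The class `t` on `X × A` belongs to the Kuenneth component `H ^ i (X) ⊗ H ^ i (A)`. -/
def IsBalanced (T : Varieties Ω) (X : T.V) (A : AbVar p Ω) (i : ℕ) (t : Coh₂ T X A) : Prop :=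
  t ∈ Submodule.span Ω {t | ∃ x ∈ T.gr X i, ∃ a ∈ deg A i, t = times T X A x a}

/-- The strong Tate conjecture in all codimensions for all `X × C` where `X` is a product of members
of `W` and `C` is an abelian variety built from factors of `B`. -/
def StrongTateFor {T : Varieties Ω} (Z : Cycles p T) (W : Set T.V) (B : AbVar p Ω) : Prop :=
  ∀ X, IsProduct T W X → ∀ C, IsBuiltFrom C B → StrongTate Z X C

/-- The Tate conjecture in all codimensions for these `X × C`, and semisimplicity of the Frobenius
endomorphism on the cohomology of these `X`. -/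
def TateAndSemisimpleFor {T : Varieties Ω} (Z : Cycles p T) (W : Set T.V) (B : AbVar p Ω) : Prop :=
  ∀ X, IsProduct T W X → IsSemisimple (T := T) X ∧ ∀ C, IsBuiltFrom C B → Tate₂ Z X C

end Pool.Agent.V8H77.LT
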