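import Pool.Agent.V8H77.LT.Member

/-!
# The classes which decide
-/

set_option autoImplicit false

namespace Pool.Agent.V8H77.LT

open Module TensorProduct Polynomial
open Pool.Agent.V8H94.CT hiding IsBuiltFrom
open Pool.Agent.V8H94.VT
open Pool.Agent.V8H94.TC (IsBuiltFrom Coh deg pullFst pullSnd frobPow)
open Pool.Agent.V8H77.VT

variable {p : ℕ} [Fact p.Prime] {Ω : Type} [Field Ω] [CharZero Ω]

/-- Finite spanning families of generalised eigenvectors. -/
theorem exists_family [IsAlgClosed Ω] (T : Cohomology p Ω) (X : T.V) (i : ℕ) :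
    ∃ (n : ℕ) (x : Fin n → T.H X) (a : Fin n → Ω) (k : Fin n → ℕ),
      (∀ j, x j ∈ T.gr X i ∧
        ((T.F X - a j • LinearMap.id) ^ k j : T.H X →ₗ[Ω] T.H X) (x j) = 0 ∧
        IsPure p (T.m X * i) (a j)) ∧ T.gr X i ≤ Submodule.span Ω (Set.range x) := by
  classical
  let S : Set (T.H X) := {x | x ∈ T.gr X i ∧ ∃ (a : Ω) (k : ℕ),
      ((T.F X - a • LinearMap.id) ^ k : T.H X →ₗ[Ω] T.H X) x = 0 ∧
        ∃ y ∈ T.gr X i, y ≠ 0 ∧ T.F X y = a • y}
  have hS : T.gr X i ≤ Submodule.span Ω S := le_span_gen (T.F X) (T.gr X i) (T.F_gr X i)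
  have hfg : (Submodule.span Ω S).FG := IsNoetherian.noetherian _
  obtain ⟨t, htS, ht⟩ := (Submodule.fg_span_iff_fg_span_finset_subset S).1 hfg
  let e := t.equivFin
  have hmem : ∀ j : Fin t.card, ((e.symm j : t) : T.H X) ∈ S := fun j => htS (e.symm j).2
  choose a k hk y hy hy0 hya using fun j => (hmem j).2
  refine ⟨t.card, fun j => (e.symm j : t), a, k, fun j => ⟨(hmem j).1, hk j,
    T.pure X i (y j) (hy j) (a j) (hy0 j) (hya j)⟩, ?_⟩
  refine hS.trans ?_
  rw [ht]
  refine Submodule.span_mono ?_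
  intro z hz
  exact ⟨e ⟨z, hz⟩, by simp⟩

/-- Restriction of the universal property. -/
theorem IsUniversal.comp {B : AbVar p Ω} {J J' : Type} {f : J → Ω} {u : J → B.H}
    (h : IsUniversal B f u) (φ : J' → J) (hφ : Function.Injective φ) :
    IsUniversal B (fun j => f (φ j)) fun j => u (φ j) := by
  classical
  intro C s t v hv
  obtain ⟨g, hg, hgu⟩ := h C s t (fun j => if hj : ∃ j', φ j' = j then v (Classical.choose hj) else 0)
    (by
      intro j
      by_cases hj : ∃ j', φ j' = j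
      · rw [dif_pos hj]
        have h1 : (C.F ^ s) (v (Classical.choose hj)) =
          f (φ (Classical.choose hj)) ^ t • v (Classical.choose hj) := hv _
        rwa [Classical.choose_spec hj] at h1
      · rw [dif_neg hj, map_zero, smul_zero])
  refine ⟨g, hg, fun j => ?_⟩
  have hj : ∃ j', φ j' = φ j := ⟨j, rfl⟩
  rw [hgu, dif_pos hj, hφ (Classical.choose_spec hj)]

/-- The vectors are not zero. -/
theorem IsUniversal.hasEigen [IsAlgClosed Ω] {B : AbVar p Ω} {J : Type} {f : J → Ω} {u : J → B.H}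
    (h : IsUniversal B f u) (hu : ∀ j, B.F (u j) = f j • u j) (j : J)
    (hf : IsWeil p B.m (f j)) : HasEigen B (f j) := by
  classical
  obtain ⟨D, v, χ, -, -, hv, hχ, -⟩ := exists_single (p := p) B.m_pos
    (W := {w : Ω | IsWeil p B.m w}) (fun w hw b hb => isWeil_root hw hb) hf hf
  obtain ⟨g, -, hg⟩ := h D 1 1 (fun j' => if f j' = f j then v else 0) (by
    intro j'
    by_cases hj : f j' = f j
    · rw [if_pos hj, pow_one, pow_one, hv, hj]
    · rw [if_neg hj, map_zero, smul_zero])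
  refine ⟨u j, ?_, hu j⟩
  intro h0
  have h1 := hg j
  rw [h0, map_zero, if_pos rfl] at h1
  rw [← h1, map_zero] at hχ
  exact zero_ne_one hχ

section

variable [IsAlgClosed Ω] {T : Cohomology p Ω} {X : T.V} {i n : ℕ} {x : Fin n → T.H X}
  {a v : Fin n → Ω} {k e : Fin n → ℕ} {B : AbVar p Ω} {c : ℕ} {u : Fin n × Fin (i + 1) → B.H}

/-- The product of the vectors with index `j`. -/
noncomputable def top (u : Fin n × Fin (i + 1) → B.H) (j : Fin n) : ExteriorAlgebra Ω B.H :=
  wedge (List.ofFn fun l : Fin i => u (j, l.castSucc))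

omit [IsAlgClosed Ω] in
theorem isGen_term (hu : ∀ q, B.F (u q) = v q.1 ^ c • u q)
    (hk : ∀ j, ((T.F X - a j • LinearMap.id) ^ k j : T.H X →ₗ[Ω] T.H X) (x j) = 0)
    (hrel : ∀ j, (a j * v j ^ i) ^ e j = ((p : Ω) ^ (T.m X * i)) ^ e j) (j : Fin n) {E : ℕ}
    (hE : e j ∣ E) :
    ((TensorProduct.map (T.F X ^ (c * E)) (ExteriorAlgebra.map (B.F ^ E)).toLinearMap -
      (p : Ω) ^ (T.m X * (c * E) * i) • LinearMap.id) ^ k j :
        T.H X ⊗[Ω] ExteriorAlgebra Ω B.H →ₗ[Ω] _) (x j ⊗ₜ[Ω] top u j) = 0 := by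
  let Y : List (Ω × B.H) := List.ofFn fun l : Fin i => (v j ^ c, u (j, l.castSucc))
  have hY : ∀ y ∈ Y, B.F y.2 = y.1 • y.2 := by
    intro y hy
    obtain ⟨l, rfl⟩ := (List.mem_ofFn' _ y).1 hy
    exact hu (j, l.castSucc)
  have h2 : (ExteriorAlgebra.map (B.F ^ E)).toLinearMap (top u j) =
      ((v j ^ c) ^ i) ^ E • top u j := by
    have h3 := map_pow_wedge_eigen B.F Y hY E
    have e1 : Y.map Prod.snd = List.ofFn fun l : Fin i => u (j, l.castSucc) := by
      rw [List.map_ofFn]; rfl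
    have e2 : (Y.map Prod.fst).prod = (v j ^ c) ^ i := by
      rw [List.map_ofFn, List.prod_ofFn]
      simp
    rw [e1, e2] at h3
    exact h3
  have h3 := gen_tmul_zero (T.F X ^ (c * E)) _ h2 (gen_pow (T.F X) (c * E) (hk j))
  have h4 : a j ^ (c * E) * ((v j ^ c) ^ i) ^ E = (p : Ω) ^ (T.m X * (c * E) * i) := by
    obtain ⟨d, rfl⟩ := hE
    calc a j ^ (c * (e j * d)) * ((v j ^ c) ^ i) ^ (e j * d)
        = ((a j * v j ^ i) ^ e j) ^ (c * d) := by
          rw [← pow_mul, ← pow_mul, ← pow_mul, mul_pow, ← pow_mul]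
          congr 2 <;> ring
      _ = _ := by rw [hrel, ← pow_mul, ← pow_mul]; congr 1; ring
  rw [h4] at h3
  exact h3

/-- The cohomology of degree `i` is dominated if the products belong to the system. -/
theorem span_of_members {P₀ : AbVar p Ω → Prop} (Z : Cycles T)
    (huniv : IsUniversal B (fun q : Fin n × Fin (i + 1) => v q.1 ^ c) u)
    (hu : ∀ q, B.F (u q) = v q.1 ^ c • u q) (hc : 0 < c) (hBm : B.m = T.m X * c)
    (hv : ∀ j, IsWeil p (T.m X) (v j)) (he : ∀ j, 0 < e j)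
    (hx : ∀ j, x j ∈ T.gr X i)
    (hk : ∀ j, ((T.F X - a j • LinearMap.id) ^ k j : T.H X →ₗ[Ω] T.H X) (x j) = 0)
    (ha : ∀ j, IsPure p (T.m X * i) (a j))
    (hrel : ∀ j, (a j * v j ^ i) ^ e j = ((p : Ω) ^ (T.m X * i)) ^ e j)
    (hspan : T.gr X i ≤ Submodule.span Ω (Set.range x))
    (hB : ∀ D : AbVar p Ω, IsBuiltFrom D B → P₀ D)
    (hmem : ∀ j, times T X B (x j) (top u j) ∈ Z.C X B) :
    T.gr X i ≤ Submodule.span Ω {x | IsDomIn P₀ Z X x} := by
  refine hspan.trans (Submodule.span_mono ?_)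
  rintro _ ⟨j, rfl⟩
  have hE : HasEigen B (v j ^ c) :=
    huniv.hasEigen hu (j, Fin.last i) (by rw [hBm]; exact (hv j).pow hc)
  exact dom_of_member Z X (hx j) (hk j) (ha j) (he j) (hv j) (hrel j) hc hBm huniv hB hE
    (fun l : Fin i => (j, l.castSucc)) (fun l l' h => by simpa using h) (fun _ => rfl) (hmem j)

omit [IsAlgClosed Ω] in
/-- **One class decides.** -/
theorem members_of_sum (Z : Cycles T)
    (huniv : IsUniversal B (fun q : Fin n × Fin (i + 1) => v q.1 ^ c) u)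
    (hu : ∀ q, B.F (u q) = v q.1 ^ c • u q) (hi : 0 < i)
    (hmem : (∑ j, times T X B (x j) (top u j)) ∈ Z.C X B) (j : Fin n) :
    times T X B (x j) (top u j) ∈ Z.C X B := by
  classical
  obtain ⟨h, hh, hhu⟩ := huniv B 1 1 (fun q => if q.1 = j then u q else 0) (by
    intro q
    by_cases hq : q.1 = j
    · rw [if_pos hq, pow_one, pow_one, hu]
    · rw [if_neg hq, map_zero, smul_zero])
  have h1 := Z.pull_mem X B B h ⟨1, 1, one_pos, one_pos, rfl, fun w =>
    LinearMap.congr_fun hh w⟩ _ hmem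
  have h2 : mapTimes T X B B LinearMap.id (pullLin B B h) (∑ j, times T X B (x j) (top u j)) =
      ∑ j, times T X B (x j) (pullLin B B h (top u j)) :=
    map_sum (TensorProduct.map (LinearMap.id : T.H X →ₗ[Ω] T.H X)
      ((ExteriorAlgebra.map h).toLinearMap)) (fun j => x j ⊗ₜ[Ω] top u j) Finset.univ
  have h3 : ∀ j', pullLin B B h (top u j') = if j' = j then top u j' else 0 := by
    intro j'
    have h4 : pullLin B B h (top u j') =
        (wedge (List.ofFn fun l : Fin i => h (u (j', l.castSucc))) : ExteriorAlgebra Ω B.H) := by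
      refine (map_wedge h _).trans ?_
      rw [List.map_ofFn]
      rfl
    rw [h4]
    by_cases hj : j' = j
    · rw [if_pos hj]
      have : (fun l : Fin i => h (u (j', l.castSucc))) = fun l => u (j', l.castSucc) := by
        funext l
        rw [hhu]
        exact if_pos hj
      rw [this]
      rfl
    · rw [if_neg hj]
      have : (fun l : Fin i => h (u (j', l.castSucc))) = fun _ => 0 := by
        funext l
        rw [hhu]
        exact if_neg hj
      rw [this]
      obtain ⟨i', rfl⟩ := Nat.exists_eq_succ_of_ne_zero hi.ne'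
      rw [List.ofFn_succ, wedge_cons, map_zero, zero_mul]
  rw [h2] at h1
  have h5 : (∑ j', times T X B (x j') (pullLin B B h (top u j'))) = times T X B (x j) (top u j) := by
    rw [Finset.sum_eq_single j]
    · rw [h3, if_pos rfl]
    · intro j' _ hj
      rw [h3, if_neg hj]
      exact TensorProduct.tmul_zero _ _
    · intro h; exact absurd (Finset.mem_univ _) h
  rw [h5] at h1
  exact h1

omit [IsAlgClosed Ω] in
/-- The class is a generalised Tate class. -/
theorem isGenTate_sum (hu : ∀ q, B.F (u q) = v q.1 ^ c • u q) (hc : 0 < c)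
    (hBm : B.m = T.m X * c) (he : ∀ j, 0 < e j)
    (hk : ∀ j, ((T.F X - a j • LinearMap.id) ^ k j : T.H X →ₗ[Ω] T.H X) (x j) = 0)
    (hrel : ∀ j, (a j * v j ^ i) ^ e j = ((p : Ω) ^ (T.m X * i)) ^ e j) :
    IsGenTate T X B i (∑ j, times T X B (x j) (top u j)) := by
  let E : ℕ := ∏ j, e j
  have hE : 0 < E := Finset.prod_pos fun j _ => he j
  have h1 : ∀ j, (x j ⊗ₜ[Ω] top u j) ∈ Module.End.maxGenEigenspace
      (TensorProduct.map (T.F X ^ (c * E)) (ExteriorAlgebra.map (B.F ^ E)).toLinearMap)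
        ((p : Ω) ^ (T.m X * (c * E) * i)) := fun j =>
    (gen_iff _ _ _).2 ⟨k j, isGen_term hu hk hrel j (Finset.dvd_prod_of_mem e (Finset.mem_univ j))⟩
  obtain ⟨K, hK⟩ := (gen_iff _ _ _).1 (Submodule.sum_mem _ fun j (_ : j ∈ Finset.univ) => h1 j)
  exact ⟨c * E, E, K, Nat.mul_pos hc hE, hE, by rw [hBm]; ring, hK⟩

omit [IsAlgClosed Ω] in
theorem isGenTate_term (hu : ∀ q, B.F (u q) = v q.1 ^ c • u q) (hc : 0 < c)
    (hBm : B.m = T.m X * c) (he : ∀ j, 0 < e j)
    (hk : ∀ j, ((T.F X - a j • LinearMap.id) ^ k j : T.H X →ₗ[Ω] T.H X) (x j) = 0)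
    (hrel : ∀ j, (a j * v j ^ i) ^ e j = ((p : Ω) ^ (T.m X * i)) ^ e j) (j : Fin n) :
    IsGenTate T X B i (times T X B (x j) (top u j)) :=
  ⟨c * e j, e j, k j, Nat.mul_pos hc (he j), he j, by rw [hBm]; ring,
    isGen_term hu hk hrel j (dvd_refl _)⟩

end

end Pool.Agent.V8H77.LT
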